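import Pool.Agent.Y660.QP.Hyp
import Pool.Agent.Y734.Stms3

/-!
# Job HYP2: from the abstract theorem without genericity to the inequality
-/

set_option autoImplicit false

namespace Pool.Agent.Y734.HYP2

open Pool.Agent.Y734 Pool.Agent.Y734.B Pool.Agent.Y660.QP
open Filter Topology MvPolynomial

section

variable {U : Ultrafilter ℕ} {Ω : Type} [Field Ω] [Algebra ℚ Ω] (g : Gm U Ω)

/-- the value of a linear form at the germ of a point -/
theorem lf_germ (z : ℕ → Fin 3 → ℂ) (G : Fin 3 → ℚ) :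
    lf (fun j => g.π (fun t => z t j)) G = g.π (fun t => lf (z t) G) := by
  unfold lf
  have h1 : (fun t => ∑ j, algebraMap ℚ ℂ (G j) * z t j) =
      ∑ j, ((fun _ => ((G j : ℚ) : ℂ)) * fun t => z t j) := by
    funext t
    rw [Finset.sum_apply]
    refine Finset.sum_congr rfl fun j _ => ?_
    rw [Pi.mul_apply, eq_ratCast]
  rw [h1, map_sum]
  refine Finset.sum_congr rfl fun j _ => ?_
  rw [map_mul, g.rat]

theorem lf_germ_zero (z : ℕ → Fin 3 → ℂ) (G : Fin 3 → ℚ) :
    lf (fun j => g.π (fun t => z t j)) G = 0 ↔ ∀ᶠ t in (U : Filter ℕ), lf (z t) G = 0 := by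
  rw [lf_germ, g.ker]

theorem quad_germ (z : ℕ → Fin 3 → ℂ) (G G' : Fin 3 → ℚ) (κ₁ κ₂ : ℚ)
    (h : lf (fun j => g.π (fun t => z t j)) G ^ 2 +
      algebraMap ℚ Ω κ₁ * (lf (fun j => g.π (fun t => z t j)) G *
        lf (fun j => g.π (fun t => z t j)) G') +
      algebraMap ℚ Ω κ₂ * lf (fun j => g.π (fun t => z t j)) G' ^ 2 = 0) :
    ∀ᶠ t in (U : Filter ℕ), lf (z t) G ^ 2 + algebraMap ℚ ℂ κ₁ * (lf (z t) G * lf (z t) G') +
      algebraMap ℚ ℂ κ₂ * lf (z t) G' ^ 2 = 0 := by
  rw [lf_germ, lf_germ, ← g.rat, ← g.rat] at h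
  simp only [← map_pow, ← map_mul, ← map_add] at h
  rw [g.ker] at h
  filter_upwards [h] with t ht
  simp only [Pi.add_apply, Pi.mul_apply, Pi.pow_apply] at ht
  rw [eq_ratCast, eq_ratCast]
  exact ht

end

theorem lf_cast (z : Fin 3 → ℂ) (G : Fin 3 → ℚ) : lf z G = ∑ j, (G j : ℂ) * z j := by
  unfold lf
  refine Finset.sum_congr rfl fun j _ => ?_
  rw [eq_ratCast]

theorem sm_zero {U : Ultrafilter ℕ} {h f : ℕ → ℝ} (a : ℝ)
    (hf : ∀ᶠ t in (U : Filter ℕ), f t = 0) : Sm U h (fun _ => 1) f a := by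
  intro ε _
  filter_upwards [hf] with t ht
  rw [ht, one_mul]
  exact (Real.exp_pos _).le

/-- **Job HYP2.** -/
theorem hyp2 (husst : UsstStmt) (habs : AbsStmt2) : HypStmt2 := by
  intro S hS q hq H hgp C Q hQ hdbl hpos ε hε
  by_contra hcon
  rw [not_eventually] at hcon
  obtain ⟨bad, hbad⟩ : ∃ bad : Set ℕ, bad = {t | ¬ ∑ v : Option S, ∑ i,
      (-Real.log ((Q t).N v (H i)) - Real.log ((Q t).N' v (H i))) ≤ (6 + ε) * (Q t).h} := ⟨_, rfl⟩
  have hne : NeBot (atTop ⊓ 𝓟 bad : Filter ℕ) := by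
    rw [← frequently_mem_iff_neBot, hbad]
    exact hcon
  obtain ⟨U, hUd⟩ : ∃ U : Ultrafilter ℕ, U = Ultrafilter.of (atTop ⊓ 𝓟 bad : Filter ℕ) := ⟨_, rfl⟩
  have hUle : (U : Filter ℕ) ≤ atTop ⊓ 𝓟 bad := by
    rw [hUd]
    exact Ultrafilter.of_le _
  have hU : (U : Filter ℕ) ≤ atTop := hUle.trans inf_le_left
  have hUb : ∀ᶠ t in (U : Filter ℕ), t ∈ bad := le_principal_iff.1 (hUle.trans inf_le_right)
  have hh : Tendsto (fun t => (Q t).h) U atTop := hQ.mono_left hU
  have hh0 : ∀ t, 0 ≤ (Q t).h := fun t => (Q t).h_nonneg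
  obtain ⟨Ω, _, _, ⟨g⟩⟩ := ex_gm U
  -- the values of the forms are not zero
  have hlf : ∀ i t, lf (Q t).z (H i) ≠ 0 := by
    intro i t h0
    have h1 := (hpos t none i).1
    rw [(Q t).null none (H i) h0] at h1
    exact lt_irrefl _ h1
  have hlf' : ∀ i t, lf (Q t).z' (H i) ≠ 0 := by
    intro i t h0
    have h1 := (hpos t none i).2
    rw [(Q t).null' none (H i) h0] at h1
    exact lt_irrefl _ h1
  have hrr : ∀ i, ∀ᶠ t in (U : Filter ℕ), rr (Q t).toQData (H i) (H i) ≠ 0 := by
    intro i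
    refine Eventually.of_forall fun t h3 => ?_
    have h1 := hlf i t
    have h2 := hlf' i t
    rw [lf_cast] at h1 h2
    have h4 := rr_eq (Q t).toQData (H i) (H i)
    rw [h3, Rat.cast_zero] at h4
    have h5 : (Q t).c * (2 * ((∑ j, (H i j : ℂ) * (Q t).z j) * (∑ j, (H i j : ℂ) * (Q t).z' j))) = 0 := by
      rw [h4]
      ring
    have h6 := mul_ne_zero (Q t).c_ne (mul_ne_zero two_ne_zero (mul_ne_zero h1 h2))
    exact h6 h5
  -- the exponents
  have hα : ∀ (v : Option S) (i : Fin q), ∃ α : ℝ, 0 ≤ α ∧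
      Tendsto (fun t => -Real.log ((Q t).N v (H i)) / (Q t).h) U (𝓝 α) ∧
      Sm U (fun t => (Q t).h) (fun _ => 1) (fun t => (Q t).N v (H i)) α := by
    intro v i
    obtain ⟨K, hK, hl⟩ := liou (C := C) hS (H i)
    refine ex_lim (fun t => (Q t).h) (fun t => (Q t).N v (H i)) hh (fun t => (hpos t v i).1)
      (lp_zero (fun t => (Q t).N v) _ hh hh0 _ (fun t => (Q t).semi v) _) hK ?_
    filter_upwards [hrr i] with t ht
    exact (hl (Q t).toQData v ht).1
  have hα' : ∀ (v : Option S) (i : Fin q), ∃ α : ℝ, 0 ≤ α ∧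
      Tendsto (fun t => -Real.log ((Q t).N' v (H i)) / (Q t).h) U (𝓝 α) ∧
      Sm U (fun t => (Q t).h) (fun _ => 1) (fun t => (Q t).N' v (H i)) α := by
    intro v i
    obtain ⟨K, hK, hl⟩ := liou (C := C) hS (H i)
    refine ex_lim (fun t => (Q t).h) (fun t => (Q t).N' v (H i)) hh (fun t => (hpos t v i).2)
      (lp_zero (fun t => (Q t).N' v) _ hh hh0 _ (fun t => (Q t).semi' v) _) hK ?_
    filter_upwards [hrr i] with t ht
    exact (hl (Q t).toQData v ht).2
  choose α hα0 hαt hαs using hα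
  choose α' hα0' hαt' hαs' using hα'
  have hmono : ∀ (f : ℕ → ℝ) (a b : ℝ), b ≤ a → Sm U (fun t => (Q t).h) (fun _ => 1) f a →
      Sm U (fun t => (Q t).h) (fun _ => 1) f b := fun f a b hab hf =>
    hf.mono hh0 (fun _ => zero_le_one) hab
  let D : Pool.Agent.Y734.B.HD (Option S) H Ω :=
    { P := fun j => g.π (fun t => (Q t).z j)
      P' := fun j => g.π (fun t => (Q t).z' j)
      c := g.π (fun t => (Q t).c)
      c_ne := by
        intro h
        rw [g.ker] at h
        obtain ⟨t, ht⟩ := h.exists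
        exact (Q t).c_ne ht
      conj := by
        intro G
        rw [lf_germ_zero g (fun t => (Q t).z), lf_germ_zero g (fun t => (Q t).z')]
        exact eventually_congr (Eventually.of_forall fun t => (Q t).conj G)
      H_ne := by
        intro i h
        rw [lf_germ_zero g (fun t => (Q t).z)] at h
        obtain ⟨t, ht⟩ := h.exists
        exact hlf i t ht
      Lev := fun v k y a => Lv g (fun t => (Q t).h) v k y a
      lev_one := fun v => lv_one hS hh hh0 v
      lev_mul := fun v k l x y a b h1 h2 => lv_mul hS v k l x y a b h1 h2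
      lev_mem := by
        intro v y hy
        have hb : ∀ G G', Lv g (fun t => (Q t).h) v 1 (bil (g.π (fun t => (Q t).c))
            (fun j => g.π (fun t => (Q t).z j)) (fun j => g.π (fun t => (Q t).z' j)) G G') 0 := by
          intro G G'
          have := lv_bil (g := g) hh v G G' 0 0 0 0
            (lp_zero (fun t => (Q t).N v) _ hh hh0 _ (fun t => (Q t).semi v) _)
            (lp_zero (fun t => (Q t).N' v) _ hh hh0 _ (fun t => (Q t).semi' v) _)
            (lp_zero (fun t => (Q t).N v) _ hh hh0 _ (fun t => (Q t).semi v) _)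
            (lp_zero (fun t => (Q t).N' v) _ hh hh0 _ (fun t => (Q t).semi' v) _)
          simpa using this
        unfold A1 at hy
        induction hy using Submodule.span_induction with
        | mem x hx =>
          obtain ⟨G, G', rfl⟩ := hx
          exact hb G G'
        | zero =>
          have := lv_smul hS hh v 1 _ 0 0 (hb 0 0)
          rwa [zero_smul] at this
        | add x y _ _ hx hy => exact lv_add hS hh v 1 x y 0 hx hy
        | smul c x _ hx => exact lv_smul hS hh v 1 x 0 c hx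
      LP := fun v G a => Sm U (fun t => (Q t).h) (fun _ => 1) (fun t => (Q t).N v G) a
      LP' := fun v G a => Sm U (fun t => (Q t).h) (fun _ => 1) (fun t => (Q t).N' v G) a
      lp_zero := fun v G => lp_zero (fun t => (Q t).N v) _ hh hh0 _ (fun t => (Q t).semi v) G
      lp_zero' := fun v G => lp_zero (fun t => (Q t).N' v) _ hh hh0 _ (fun t => (Q t).semi' v) G
      lp_lin := fun v G G' r s a h1 h2 =>
        lp_lin (fun t => (Q t).N v) _ hh _ (fun t => (Q t).semi v) G G' r s a h1 h2
      lp_lin' := fun v G G' r s a h1 h2 =>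
        lp_lin (fun t => (Q t).N' v) _ hh _ (fun t => (Q t).semi' v) G G' r s a h1 h2
      lp_mono := fun v G a b hab h1 => hmono _ a b hab h1
      lp_mono' := fun v G a b hab h1 => hmono _ a b hab h1
      lp_three := fun v G a h1 h2 =>
        lp_three (fun t => (Q t).N v) _ hh _ (fun t => (Q t).semi v) G a h1 h2
      lp_three' := fun v G a h1 h2 =>
        lp_three (fun t => (Q t).N' v) _ hh _ (fun t => (Q t).semi' v) G a h1 h2
      lp_null := by
        intro v G a h
        rw [lf_germ_zero g (fun t => (Q t).z)] at h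
        apply sm_zero
        filter_upwards [h] with t ht
        exact (Q t).null v G ht
      lp_null' := by
        intro v G a h
        rw [lf_germ_zero g (fun t => (Q t).z')] at h
        apply sm_zero
        filter_upwards [h] with t ht
        exact (Q t).null' v G ht
      lp_quad := by
        intro v G G' κ₁ κ₂ a h h1
        refine Sm.of_le hh (K := 1 + absQ (v.map (fun p => (p : ℕ))) κ₁ +
          absQ (v.map (fun p => (p : ℕ))) κ₂) ?_ (fun _ => zero_le_one) h1 ?_
        · have := absQ_nonneg (v.map (fun p => (p : ℕ))) κ₁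
          have := absQ_nonneg (v.map (fun p => (p : ℕ))) κ₂
          linarith
        · filter_upwards [quad_germ g (fun t => (Q t).z) G G' κ₁ κ₂ h] with t ht
          exact (Q t).quad v G G' κ₁ κ₂ ht
      lp_quad' := by
        intro v G G' κ₁ κ₂ a h h1
        refine Sm.of_le hh (K := 1 + absQ (v.map (fun p => (p : ℕ))) κ₁ +
          absQ (v.map (fun p => (p : ℕ))) κ₂) ?_ (fun _ => zero_le_one) h1 ?_
        · have := absQ_nonneg (v.map (fun p => (p : ℕ))) κ₁
          have := absQ_nonneg (v.map (fun p => (p : ℕ))) κ₂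
          linarith
        · filter_upwards [quad_germ g (fun t => (Q t).z') G G' κ₁ κ₂ h] with t ht
          exact (Q t).quad' v G G' κ₁ κ₂ ht
      pair := fun v G G' a a' b b' h1 h2 h3 h4 => lv_bil (g := g) hh v G G' a a' b b' h1 h2 h3 h4
      α := α
      α' := α'
      α_nonneg := hα0
      α_nonneg' := hα0'
      lp_α := hαs
      lp_α' := hαs'
      sst := fun k W _ _ ι _ b w h1 h2 h3 h4 =>
        sst g hS husst hU (fun t => (Q t).h) hh k W ι b w h1 h2 h3 h4 }
  have hfin := habs (Option S) q hq H hgp Ω D (by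
    intro ℓ hℓ h
    have h' : lf (fun j => g.π (fun t => (Q t).z j)) ℓ = 0 := h
    rw [lf_germ_zero g (fun t => (Q t).z)] at h'
    obtain ⟨t, ht⟩ := h'.exists
    exact hdbl t ℓ hℓ ht)
  have hfin' : ∑ v : Option S, ∑ i, (α v i + α' v i) ≤ 6 := hfin
  -- the limit of the failing inequality
  have hlim : Tendsto (fun t => ∑ v : Option S, ∑ i, (-Real.log ((Q t).N v (H i)) / (Q t).h +
      -Real.log ((Q t).N' v (H i)) / (Q t).h)) U (𝓝 (∑ v : Option S, ∑ i, (α v i + α' v i))) :=
    tendsto_finsetSum _ fun v _ => tendsto_finsetSum _ fun i _ => (hαt v i).add (hαt' v i)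
  have hge : ∀ᶠ t in (U : Filter ℕ), 6 + ε ≤ ∑ v : Option S, ∑ i,
      (-Real.log ((Q t).N v (H i)) / (Q t).h + -Real.log ((Q t).N' v (H i)) / (Q t).h) := by
    filter_upwards [hUb, hh.eventually_gt_atTop 0] with t h1 h2
    rw [hbad] at h1
    have h3 := not_le.1 h1
    have h4 : ∑ v : Option S, ∑ i,
        (-Real.log ((Q t).N v (H i)) / (Q t).h + -Real.log ((Q t).N' v (H i)) / (Q t).h) =
        (∑ v : Option S, ∑ i,
          (-Real.log ((Q t).N v (H i)) - Real.log ((Q t).N' v (H i)))) / (Q t).h := by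
      rw [Finset.sum_div]
      apply Finset.sum_congr rfl
      intro v _
      rw [Finset.sum_div]
      apply Finset.sum_congr rfl
      intro i _
      ring
    rw [h4, le_div_iff₀ h2]
    exact h3.le
  have := ge_of_tendsto hlim hge
  linarith

end Pool.Agent.Y734.HYP2
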